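import Pool.Agent.H97.NR.Stmts

set_option linter.unusedVariables false

namespace Pool.NR

universe u

namespace RC1

variable {p : ℕ} {R : Type u} [NonUnitalRing R]

theorem comb (g : Fin 4 → R) (hg : AddSubgroup.closure (Set.range g) = ⊤) (x : R) :
    ∃ n : Fin 4 → ℤ, x = ∑ i, n i • g i := by
  have hx : x ∈ AddSubgroup.closure (Set.range g) := by rw [hg]; trivial
  induction hx using AddSubgroup.closure_induction with
  | mem y hy =>
    obtain ⟨i, rfl⟩ := hy
    refine ⟨fun j => if j = i then 1 else 0, ?_⟩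
    simp
  | zero => exact ⟨0, by simp⟩
  | add y z _ _ hy hz =>
    obtain ⟨a, ha⟩ := hy
    obtain ⟨b, hb⟩ := hz
    exact ⟨a + b, by rw [ha, hb, ← Finset.sum_add_distrib]; simp [add_smul]⟩
  | neg y _ hy =>
    obtain ⟨a, ha⟩ := hy
    exact ⟨-a, by rw [ha, ← Finset.sum_neg_distrib]; simp⟩

theorem tabUp31 (π : Fin 3 → ZMod p) (B : Fin 3 → Fin 3 → ZMod p) : TabUp (tab31 π B) := by
  intro i j h
  fin_cases i <;> fin_cases j <;> simp [tab31] at h ⊢

theorem dat [Fact p.Prime] (hb : BASStmt.{u}) (π : Fin 3 → ZMod p) (B : Fin 3 → Fin 3 → ZMod p)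
    (hc : Nat.card R = p ^ 4) (h : HasTab p R (tab31 π B)) :
    ∃ (x : Fin 3 → R) (z : R),
      (∀ y : R, ∃ (n : Fin 3 → ℤ) (m : ℤ), y = ∑ i, n i • x i + m • z) ∧
      (∀ i, (p : ℤ) • x i = ((π i).val : ℤ) • z) ∧ (p : ℤ) • z = 0 ∧
      (∀ i j, x i * x j = ((B i j).val : ℤ) • z) ∧ (∀ i, x i * z = 0) ∧ (∀ i, z * x i = 0) ∧
      z * z = 0 ∧
      (∀ (n : Fin 3 → ℤ) (m : ℤ), ∑ i, n i • x i + m • z = 0 → ∀ i, (p : ℤ) ∣ n i) ∧
      ∀ m : ℤ, m • z = 0 → (p : ℤ) ∣ m := by
  have hp0 : (p : ℤ) ≠ 0 := by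
    exact_mod_cast (Fact.out : p.Prime).ne_zero
  obtain ⟨g, hg, hP, hM⟩ := h
  have hbas := hb p R (tab31 π B) hc (tabUp31 π B) g hg hP
  refine ⟨![g 0, g 1, g 2], g 3, ?_, ?_, ?_, ?_, ?_, ?_, ?_, ?_, ?_⟩
  · intro y
    obtain ⟨n, hn⟩ := comb g hg y
    refine ⟨![n 0, n 1, n 2], n 3, ?_⟩
    rw [hn, Fin.sum_univ_four, Fin.sum_univ_three]
    simp
  · intro i
    have h0 := hP 0
    have h1 := hP 1
    have h2 := hP 2
    simp [tab31, Fin.sum_univ_four] at h0 h1 h2
    rw [natCast_zsmul, natCast_zsmul]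
    fin_cases i
    · simpa using h0
    · simpa using h1
    · simpa using h2
  · have h3 := hP 3
    simp [tab31, Fin.sum_univ_four] at h3
    simpa using h3
  · intro i j
    have h3 := hM (Fin.castSucc i) (Fin.castSucc j)
    rw [natCast_zsmul]
    fin_cases i <;> fin_cases j <;> simp [tab31, Fin.sum_univ_four] at h3 ⊢ <;> simpa using h3
  · intro i
    have h3 := hM (Fin.castSucc i) 3
    fin_cases i <;> simp [tab31, Fin.sum_univ_four] at h3 ⊢ <;> simpa using h3
  · intro i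
    have h3 := hM 3 (Fin.castSucc i)
    fin_cases i <;> simp [tab31, Fin.sum_univ_four] at h3 ⊢ <;> simpa using h3
  · have h3 := hM 3 3
    simpa [tab31, Fin.sum_univ_four] using h3
  · intro n m h i
    have h4 := hbas ![n 0, n 1, n 2, m] (by
      rw [Fin.sum_univ_three] at h
      rw [Fin.sum_univ_four]
      simpa using h)
    obtain ⟨c, hc'⟩ := h4
    have e0 := hc' 0
    have e1 := hc' 1
    have e2 := hc' 2
    simp [tab31, Fin.sum_univ_four] at e0 e1 e2
    fin_cases i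
    · exact ⟨c 0, e0⟩
    · exact ⟨c 1, e1⟩
    · exact ⟨c 2, e2⟩
  · intro m h
    have h4 := hbas ![0, 0, 0, m] (by
      rw [Fin.sum_univ_four]
      simpa using h)
    obtain ⟨c, hc'⟩ := h4
    have e0 := hc' 0
    have e1 := hc' 1
    have e2 := hc' 2
    have e3 := hc' 3
    simp [tab31, Fin.sum_univ_four] at e0 e1 e2 e3
    have c0 : c 0 = 0 := by
      rcases e0 with h | h
      · exact absurd h (by exact_mod_cast hp0)
      · exact h
    have c1 : c 1 = 0 := by
      rcases e1 with h | h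
      · exact absurd h (by exact_mod_cast hp0)
      · exact h
    have c2 : c 2 = 0 := by
      rcases e2 with h | h
      · exact absurd h (by exact_mod_cast hp0)
      · exact h
    rw [c0, c1, c2] at e3
    exact ⟨c 3, by rw [e3]; ring⟩

theorem zeq [Fact p.Prime] {z : R} (hz : (p : ℤ) • z = 0) (hzd : ∀ m : ℤ, m • z = 0 → (p : ℤ) ∣ m)
    (a b : ℤ) : a • z = b • z ↔ (a : ZMod p) = (b : ZMod p) := by
  rw [← sub_eq_zero, ← sub_smul, ← sub_eq_zero (a := (a : ZMod p)), ← Int.cast_sub,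
    ZMod.intCast_zmod_eq_zero_iff_dvd]
  constructor
  · exact hzd _
  · rintro ⟨c, hc⟩
    rw [hc, mul_comm, mul_smul, hz, smul_zero]

theorem prodf (x : Fin 3 → R) (z : R) (b : Fin 3 → Fin 3 → ℤ)
    (hxx : ∀ i j, x i * x j = b i j • z) (hxz : ∀ i, x i * z = 0) (hzx : ∀ i, z * x i = 0)
    (hzz : z * z = 0) (n n' : Fin 3 → ℤ) (m m' : ℤ) :
    (∑ i, n i • x i + m • z) * (∑ i, n' i • x i + m' • z) =
      (∑ k, ∑ l, n k * n' l * b k l) • z := by
  rw [add_mul, mul_add, mul_add, smul_mul_smul_comm, hzz, smul_zero, add_zero]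
  have h1 : (∑ i, n i • x i) * (m' • z) = 0 := by
    rw [Finset.sum_mul]
    exact Finset.sum_eq_zero fun i _ => by rw [smul_mul_smul_comm, hxz, smul_zero]
  have h2 : (m • z) * (∑ i, n' i • x i) = 0 := by
    rw [Finset.mul_sum]
    exact Finset.sum_eq_zero fun i _ => by rw [smul_mul_smul_comm, hzx, smul_zero]
  rw [h1, h2, add_zero, add_zero, Finset.sum_mul, Finset.sum_smul]
  refine Finset.sum_congr rfl fun k _ => ?_
  rw [Finset.mul_sum, Finset.sum_smul]
  refine Finset.sum_congr rfl fun l _ => ?_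
  rw [smul_mul_smul_comm, hxx, smul_smul]

theorem pf (x : Fin 3 → R) (z : R) (q : Fin 3 → ℤ)
    (hpx : ∀ i, (p : ℤ) • x i = q i • z) (hpz : (p : ℤ) • z = 0) (n : Fin 3 → ℤ) (m : ℤ) :
    (p : ℤ) • (∑ i, n i • x i + m • z) = (∑ k, n k * q k) • z := by
  rw [smul_add, smul_comm, hpz, smul_zero, add_zero, Finset.smul_sum, Finset.sum_smul]
  refine Finset.sum_congr rfl fun k _ => ?_
  rw [smul_comm, hpx, smul_smul]

end RC1

open RC1 in
theorem rc1 (hb : BASStmt.{u}) : RC1Stmt.{u} := by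
  intro p _ R _ π π' B B' hc hne hT hT'
  obtain ⟨x, z, hcomb, hpx, hpz, hxx, hxz, hzx, hzz, hind, hzd⟩ := dat hb π B hc hT
  obtain ⟨x', z', hcomb', hpx', hpz', hxx', hxz', hzx', hzz', hind', hzd'⟩ := dat hb π' B' hc hT'
  have hp1 : (1 : ZMod p) ≠ 0 := one_ne_zero
  -- z is a multiple of z'
  have hkey : ∀ a : ZMod p, a ≠ 0 → ∀ k : ℤ, ((a.val : ℕ) : ℤ) • z = k • z' →
      ∃ r : ℤ, (r : ZMod p) ≠ 0 ∧ z' = r • z := by
    intro a ha k hk
    have h1 : ((a⁻¹.val * a.val : ℕ) : ℤ) • z = (a⁻¹.val * k : ℤ) • z' := by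
      push_cast
      rw [mul_smul, hk, ← mul_smul]
    have h2 : ((a⁻¹.val * a.val : ℕ) : ℤ) • z = z := by
      rw [← one_smul ℤ z, smul_smul, mul_one, zeq hpz hzd]
      simp [ha]
    rw [h2] at h1
    set s : ℤ := a⁻¹.val * k with hs
    have hs0 : (s : ZMod p) ≠ 0 := by
      intro h0
      rw [ZMod.intCast_zmod_eq_zero_iff_dvd] at h0
      obtain ⟨c, hc⟩ := h0
      rw [hc, mul_comm, mul_smul, hpz', smul_zero] at h1
      have := hzd 1 (by rw [h1, smul_zero])
      rw [← ZMod.intCast_zmod_eq_zero_iff_dvd] at this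
      simp at this
    refine ⟨((s : ZMod p)⁻¹).val, ?_, ?_⟩
    · simpa using hs0
    · rw [h1, smul_smul]
      conv_lhs => rw [← one_smul ℤ z']
      rw [zeq hpz' hzd']
      push_cast
      rw [ZMod.natCast_zmod_val, inv_mul_cancel₀ hs0]
  have hr : ∃ r : ℤ, (r : ZMod p) ≠ 0 ∧ z' = r • z := by
    rcases hne with h | h
    · obtain ⟨i, hi⟩ := Function.ne_iff.mp h
      obtain ⟨n, m, hn⟩ := hcomb' (x i)
      refine hkey (π i) hi (∑ k, n k * (((π' k).val : ℕ) : ℤ)) ?_
      rw [← hpx i, hn, pf x' z' _ hpx' hpz']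
    · obtain ⟨i, hi⟩ := Function.ne_iff.mp h
      obtain ⟨j, hj⟩ := Function.ne_iff.mp hi
      obtain ⟨n, m, hn⟩ := hcomb' (x i)
      obtain ⟨n', m', hn'⟩ := hcomb' (x j)
      refine hkey (B i j) hj (∑ k, ∑ l, n k * n' l * (((B' k l).val : ℕ) : ℤ)) ?_
      rw [← hxx i j, hn, hn', prodf x' z' _ hxx' hxz' hzx' hzz']
  obtain ⟨r, hr0, hr⟩ := hr
  choose n m hn using fun i => hcomb (x' i)
  choose n' m' hn' using fun i => hcomb' (x i)
  refine ⟨Matrix.of fun j i => ((n i j : ℤ) : ZMod p), (r : ZMod p), ?_, hr0, ?_, ?_⟩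
  · have hmul : (Matrix.of fun j i => ((n i j : ℤ) : ZMod p)) *
        (Matrix.of fun j i => ((n' i j : ℤ) : ZMod p)) = 1 := by
      ext k i
      rw [Matrix.mul_apply]
      have h1 : ∑ k, ((if k = i then 1 else 0) - ∑ j, n' i j * n j k) • x k +
          (-(∑ j, n' i j * m j) - m' i * r) • z = 0 := by
        have h2 : x i = ∑ j, n' i j • x' j + m' i • z' := hn' i
        have h3 : ∑ j, n' i j • x' j = ∑ k, (∑ j, n' i j * n j k) • x k +
            (∑ j, n' i j * m j) • z := by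
          calc ∑ j, n' i j • x' j = ∑ j, n' i j • (∑ k, n j k • x k + m j • z) :=
                Finset.sum_congr rfl fun j _ => by rw [← hn j]
            _ = ∑ j, (∑ k, (n' i j * n j k) • x k + (n' i j * m j) • z) :=
                Finset.sum_congr rfl fun j _ => by
                  rw [smul_add, Finset.smul_sum, smul_smul]
                  congr 1
                  exact Finset.sum_congr rfl fun k _ => by rw [smul_smul]
            _ = _ := by
                rw [Finset.sum_add_distrib, Finset.sum_comm, ← Finset.sum_smul]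
                congr 1
                exact Finset.sum_congr rfl fun k _ => by rw [Finset.sum_smul]
        rw [h3, hr] at h2
        simp only [sub_smul, Finset.sum_sub_distrib, ite_smul, one_smul, zero_smul,
          Finset.sum_ite_eq', Finset.mem_univ, if_true, neg_smul]
        rw [mul_smul]
        nth_rewrite 1 [h2]
        abel
      have h4 := hind _ _ h1 k
      rw [← ZMod.intCast_zmod_eq_zero_iff_dvd] at h4
      push_cast at h4
      rw [sub_eq_zero] at h4
      simp only [Matrix.of_apply, Matrix.one_apply]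
      rw [h4]
      exact Finset.sum_congr rfl fun j _ => mul_comm _ _
    intro h0
    have := congrArg Matrix.det hmul
    rw [Matrix.det_mul, h0, zero_mul, Matrix.det_one] at this
    exact hp1 this.symm
  · intro i
    have h1 := hpx' i
    rw [hn i, pf x z _ hpx hpz, hr, smul_smul, zeq hpz hzd] at h1
    push_cast at h1
    simp only [ZMod.natCast_zmod_val] at h1
    rw [mul_comm, ← h1]
    exact Finset.sum_congr rfl fun j _ => rfl
  · intro i j
    have h1 := hxx' i j
    rw [hn i, hn j, prodf x z _ hxx hxz hzx hzz, hr, smul_smul, zeq hpz hzd] at h1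
    push_cast at h1
    simp only [ZMod.natCast_zmod_val] at h1
    rw [mul_comm, ← h1]
    exact Finset.sum_congr rfl fun j _ => rfl

end Pool.NR
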