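import Pool.Agent.H97.NR.Stmts

set_option linter.unusedVariables false
set_option linter.unusedSimpArgs false

namespace Pool.NR

namespace W3C

variable {p : ℕ}

theorem noroot [Fact p.Prime] {a : ZMod p} (ha : ARep p a) {x y : ZMod p}
    (h : a * x ^ 2 + x * y + y ^ 2 = 0) : x = 0 ∧ y = 0 := by
  by_cases hx : x = 0
  · refine ⟨hx, ?_⟩
    rw [hx] at h
    have h2 : y ^ 2 = 0 := by linear_combination h
    exact pow_eq_zero_iff (two_ne_zero) |>.mp h2
  · exfalso
    apply ha.1 (y / x)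
    field_simp
    linear_combination h

theorem arep_eq {a b : ZMod p} (ha : ARep p a) (hb : ARep p b) [Fact p.Prime] : a = b :=
  ZMod.val_injective p (le_antisymm (ha.2 b hb.1) (hb.2 a ha.1))

end W3C

open W3C in
theorem w3c : W3CStmt := by
  intro p _ B B' hB hB' h
  obtain ⟨g, h', hg, hh, h⟩ := h
  rw [Matrix.det_fin_two] at hg hh
  have e000 := h 0 0 0
  have e001 := h 0 0 1
  have e010 := h 0 1 0
  have e011 := h 0 1 1
  have e100 := h 1 0 0
  have e101 := h 1 0 1
  have e110 := h 1 1 0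
  have e111 := h 1 1 1
  clear h
  -- indices: i j l
  cases hB with
  | c1 =>
    cases hB' with
    | c1 => rfl
    | c2 a ha =>
      exfalso
      simp [T22, Fin.sum_univ_two] at e000 e001 e010 e011 e100 e101 e110 e111
      have := noroot ha (x := g 0 0) (y := g 0 1) (by linear_combination (-a) * e000 - e010 - e110)
      apply hg
      rw [this.1, this.2]; ring
    | c3 =>
      exfalso
      simp [T22, Fin.sum_univ_two] at e000 e001 e010 e011 e100 e101 e110 e111
      apply hg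
      rw [e110, e111]; ring
  | c2 a ha =>
    cases hB' with
    | c1 =>
      exfalso
      simp [T22, Fin.sum_univ_two] at e000 e001 e010 e011 e100 e101 e110 e111
      have h1 : (g 0 0 * g 1 1 - g 0 1 * g 1 0) ^ 2 *
          (a * (h' 1 1) ^ 2 + h' 1 1 * (-h' 0 1) + (-h' 0 1) ^ 2) = 0 := by
        linear_combination (h' 1 1 * (g 0 0 ^ 2 - a * g 1 0 ^ 2) - h' 0 1 * (2 * g 0 0 * g 1 0 - g 1 0 ^ 2)) *
            (h' 1 1 * e110 - h' 0 1 * e111) +
          (h' 1 1 * (g 0 1 * g 0 0 - a * g 1 1 * g 1 0) -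
            h' 0 1 * (g 0 1 * g 1 0 + g 1 1 * g 0 0 - g 1 1 * g 1 0)) *
            (-h' 1 1 * e010 + h' 0 1 * e011)
      have := noroot ha (x := h' 1 1) (y := -h' 0 1)
        ((mul_eq_zero.mp h1).resolve_left (pow_ne_zero 2 hg))
      apply hh
      rw [this.1, neg_eq_zero.mp this.2]; ring
    | c2 b hb => rw [arep_eq ha hb]
    | c3 =>
      exfalso
      simp [T22, Fin.sum_univ_two] at e000 e001 e010 e011 e100 e101 e110 e111
      have h1 : (g 0 0 * g 1 1 - g 0 1 * g 1 0) ^ 2 *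
          (a * (h' 1 1) ^ 2 + h' 1 1 * (-h' 0 1) + (-h' 0 1) ^ 2) = 0 := by
        linear_combination (h' 1 1 * (g 0 0 ^ 2 - a * g 1 0 ^ 2) - h' 0 1 * (2 * g 0 0 * g 1 0 - g 1 0 ^ 2)) *
            (h' 1 1 * e110 - h' 0 1 * e111) +
          (h' 1 1 * (g 0 1 * g 0 0 - a * g 1 1 * g 1 0) -
            h' 0 1 * (g 0 1 * g 1 0 + g 1 1 * g 0 0 - g 1 1 * g 1 0)) *
            (-h' 1 1 * e010 + h' 0 1 * e011)
      have := noroot ha (x := h' 1 1) (y := -h' 0 1)
        ((mul_eq_zero.mp h1).resolve_left (pow_ne_zero 2 hg))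
      apply hh
      rw [this.1, neg_eq_zero.mp this.2]; ring
  | c3 =>
    cases hB' with
    | c1 =>
      exfalso
      simp [T22, Fin.sum_univ_two] at e000 e001 e010 e011 e100 e101 e110 e111
      have e010 : (0 : ZMod p) = g 0 0 * g 0 1 := by
        rcases e010 with h | h <;> rw [h] <;> ring
      have h1 : (g 0 0 * g 1 1 - g 0 1 * g 1 0) ^ 2 * (h' 0 1) ^ 2 = 0 := by
        linear_combination (h' 1 1 * g 0 0 ^ 2 - h' 0 1 * (2 * g 0 0 * g 1 0)) *
            (h' 1 1 * e110 - h' 0 1 * e111) +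
          (h' 1 1 * (g 0 1 * g 0 0) - h' 0 1 * (g 0 1 * g 1 0 + g 1 1 * g 0 0)) *
            (-h' 1 1 * e010 + h' 0 1 * e011)
      have h2 : (g 0 0 * g 1 1 - g 0 1 * g 1 0) ^ 2 * (h' 0 0) ^ 2 = 0 := by
        linear_combination (-1) * (-h' 1 0 * g 0 1 ^ 2 + h' 0 0 * (2 * g 0 1 * g 1 1)) *
            (h' 1 0 * e000 - h' 0 0 * e001) +
          (-h' 1 0 * (g 0 1 * g 0 0) + h' 0 0 * (g 0 1 * g 1 0 + g 1 1 * g 0 0)) *
            (h' 1 0 * e010 - h' 0 0 * e011)
      have h3 : h' 0 1 = 0 :=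
        pow_eq_zero_iff (two_ne_zero) |>.mp ((mul_eq_zero.mp h1).resolve_left (pow_ne_zero 2 hg))
      have h4 : h' 0 0 = 0 :=
        pow_eq_zero_iff (two_ne_zero) |>.mp ((mul_eq_zero.mp h2).resolve_left (pow_ne_zero 2 hg))
      apply hh
      rw [h3, h4]; ring
    | c2 a ha =>
      exfalso
      simp [T22, Fin.sum_univ_two] at e000 e001 e010 e011 e100 e101 e110 e111
      have := noroot ha (x := g 0 0) (y := g 0 1) (by linear_combination (-a) * e000 - e010 - e110)
      apply hg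
      rw [this.1, this.2]; ring
    | c3 => rfl

end Pool.NR
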