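import Pool.Agent.H97.NR.Stmts

set_option linter.unusedVariables false
set_option linter.unusedSimpArgs false

namespace Pool.NR

namespace Y3C

variable {p : ℕ}

theorem trs [Fact p.Prime] {B B' : Fin 2 → Fin 2 → Fin 2 → ZMod p} (h : Eq3c B B') :
    ∃ g : Matrix (Fin 2) (Fin 2) (ZMod p), g 0 0 * g 1 1 - g 0 1 * g 1 0 ≠ 0 ∧
      (∀ i, tr1 B' i = g 0 i * tr1 B 0 + g 1 i * tr1 B 1) ∧
      (∀ i, tr2 B' i = g 0 i * tr2 B 0 + g 1 i * tr2 B 1) := by
  obtain ⟨g, hg, h⟩ := h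
  rw [Matrix.det_fin_two] at hg
  refine ⟨g, hg, fun i => mul_left_cancel₀ hg ?_, fun i => mul_left_cancel₀ hg ?_⟩
  · have h00 := h i 0 0
    have h01 := h i 0 1
    have h10 := h i 1 0
    have h11 := h i 1 1
    simp only [Fin.sum_univ_two] at h00 h01 h10 h11
    simp only [tr1]
    linear_combination g 1 1 * h00 - g 0 1 * h01 - g 1 0 * h10 + g 0 0 * h11
  · have h00 := h 0 i 0
    have h01 := h 0 i 1
    have h10 := h 1 i 0
    have h11 := h 1 i 1
    simp only [Fin.sum_univ_two] at h00 h01 h10 h11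
    simp only [tr2]
    linear_combination g 1 1 * h00 - g 0 1 * h01 - g 1 0 * h10 + g 0 0 * h11

theorem cls [Fact p.Prime] {B : Fin 2 → Fin 2 → Fin 2 → ZMod p} (h : NF3c B) :
    (NF3cG B ∧ tr1 B 0 * tr2 B 1 - tr1 B 1 * tr2 B 0 ≠ 0) ∨
    (NF3cL B ∧ tr1 B 1 = 0 ∧ tr2 B 1 = 0 ∧ (tr1 B 0 ≠ 0 ∨ tr2 B 0 ≠ 0)) ∨
    (NF3cZ B ∧ tr1 B 0 = 0 ∧ tr2 B 0 = 0 ∧ tr1 B 1 = 0 ∧ tr2 B 1 = 0) := by
  have hpt : ∀ α β : ZMod p, Pt α β → α ≠ 0 ∨ β ≠ 0 := by
    intro α β h
    rcases h with h | ⟨h1, h2⟩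
    · left; rw [h]; exact one_ne_zero
    · right; rw [h2]; exact one_ne_zero
  rcases h with hB | hB | hB
  · left
    refine ⟨hB, ?_⟩
    cases hB with
    | g a c d e => simp [tr1, tr2, T22]
  · right; left
    refine ⟨hB, ?_⟩
    cases hB <;> simp [tr1, tr2, T3c, T22] <;> apply hpt <;> assumption
  · right; right
    refine ⟨hB, ?_⟩
    cases hB <;> simp [tr1, tr2, T3c, T22]

end Y3C

open Y3C in
theorem y3c : Y3CStmt := by
  intro p _ B B' hB hB' h
  obtain ⟨g, hg, h1, h2⟩ := trs h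
  have h10 := h1 0
  have h11 := h1 1
  have h20 := h2 0
  have h21 := h2 1
  have hW : tr1 B' 0 * tr2 B' 1 - tr1 B' 1 * tr2 B' 0 =
      (g 0 0 * g 1 1 - g 0 1 * g 1 0) * (tr1 B 0 * tr2 B 1 - tr1 B 1 * tr2 B 0) := by
    rw [h10, h11, h20, h21]; ring
  rcases cls hB with ⟨c, w⟩ | ⟨c, w1, w2, w3⟩ | ⟨c, w1, w2, w3, w4⟩ <;>
    rcases cls hB' with ⟨c', w'⟩ | ⟨c', w1', w2', w3'⟩ | ⟨c', w1', w2', w3', w4'⟩
  · exact Or.inl ⟨c, c'⟩
  · exfalso
    rw [w1', w2'] at hW
    simp only [mul_zero, zero_mul, sub_zero] at hW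
    exact mul_ne_zero hg w hW.symm
  · exfalso
    rw [w1', w2', w3', w4'] at hW
    simp only [mul_zero, zero_mul, sub_zero] at hW
    exact mul_ne_zero hg w hW.symm
  · exfalso
    rw [w1, w2] at hW
    simp only [mul_zero, zero_mul, sub_zero] at hW
    exact w' hW
  · exact Or.inr (Or.inl ⟨c, c'⟩)
  · exfalso
    rw [w1', w1, mul_zero, add_zero] at h10
    rw [w3', w1, mul_zero, add_zero] at h11
    rw [w2', w2, mul_zero, add_zero] at h20
    rw [w4', w2, mul_zero, add_zero] at h21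
    apply hg
    rcases w3 with w | w
    · have e0 : g 0 0 = 0 := by
        rcases mul_eq_zero.mp h10.symm with h | h
        · exact h
        · exact absurd h w
      have e1 : g 0 1 = 0 := by
        rcases mul_eq_zero.mp h11.symm with h | h
        · exact h
        · exact absurd h w
      rw [e0, e1]; ring
    · have e0 : g 0 0 = 0 := by
        rcases mul_eq_zero.mp h20.symm with h | h
        · exact h
        · exact absurd h w
      have e1 : g 0 1 = 0 := by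
        rcases mul_eq_zero.mp h21.symm with h | h
        · exact h
        · exact absurd h w
      rw [e0, e1]; ring
  · exfalso
    rw [w1, w2, w3, w4] at hW
    simp only [mul_zero, zero_mul, sub_zero] at hW
    exact w' hW
  · exfalso
    rw [w1, w3, mul_zero, mul_zero, add_zero] at h10
    rw [w2, w4, mul_zero, mul_zero, add_zero] at h20
    rcases w3' with w | w
    · exact w h10
    · exact w h20
  · exact Or.inr (Or.inr ⟨c, c'⟩)

end Pool.NR
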